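import Pool.Agent.N876.UV.Tot

/-!
# The parts with nontrivial characters contain no Tate classes
-/

set_option autoImplicit false

namespace Pool.Agent.U926.FM

open Finset Polynomial Pool.Agent.N876.UV Pool.Agent.N876.TC Pool.Agent.W528.HA
  Pool.Agent.W528.HB

variable {c : ℕ} [Fact c.Prime]

theorem no_tate {ι : Type} [Fintype ι] [DecidableEq ι] {κ : Type} [Field κ] [Fintype κ] [CharP κ c]
    {f : ℕ} (hf : Fintype.card κ = c ^ f) {N : ℕ} (hN : 0 < N) {d n s : ι → ℕ}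
    (hd : ∀ i, 2 ≤ d i) (hdN : ∀ i, d i ∣ N) {a : ∀ i, Fin (s i) → ℕ}
    (ha : ∀ i k, (a i k).Coprime (d i)) {z : ι → κ} (hz : ∀ i, IsPrimitiveRoot (z i) (d i))
    {P : Type} {dg : P → ℕ} {res : P → Type} [∀ v, Field (res v)] [∀ v, Fintype (res v)]
    [∀ v, Algebra κ (res v)] (hres : ∀ v, Module.finrank κ (res v) = dg v)
    (l : ∀ i v, Fin (s i) → Fin (n i + 1) → res v)
    {K : ι → Type} [∀ i, Fintype (K i)] {codim : ∀ i, K i → ℕ}
    {J : ι → P → Type} [∀ i v, Fintype (J i v)] {α : ∀ i v, J i v → ℂ} {ε : ∀ i v, J i v → ℕ}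
    (hε : ∀ i v e, ¬ d i ∣ ε i v e)
    (hspec : ∀ i v, IsSpec (d i) (l i v) (a i) (algebraMap κ (res v) (z i)) (α i v) (ε i v))
    {JY : P → Type} [∀ v, Fintype (JY v)] {dY : ∀ v, JY v → ℕ} {β : ∀ v, JY v → ℂ} {D : ℕ}
    (hY : ∀ v y, IsIntegral ℤ (β v y / (Fintype.card (res v) : ℂ) ^ (dY v y - D)))
    {e0 δ : ℕ} (hδ : δ = D + e0) {I : Finset ι} (hsmall : SmallI c f N δ d n s a I)
    {j : ι → ℕ} (hj : ∀ i, d i ∣ j i ↔ i ∉ I) {nn w : ℕ} (hw : 2 * w ≤ nn + e0) {v : P}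
    (E : (∀ i, K i ⊕ J i v) × JY v) (hE1 : dd n codim dY E = nn)
    (hE2 : ∀ i, exq (ε i v) (E.1 i) ≡ j i [MOD d i]) {m : ℕ} (hm : 0 < m) :
    (ee (fun v => Fintype.card (res v)) codim α β E) ^ m ≠
      (((Fintype.card (res v) : ℕ) : ℂ) ^ w) ^ m := by
  intro heq
  have hd0 : ∀ i, 0 < d i := fun i => by have := hd i; omega
  obtain ⟨k, _, R, rs, _, _, hR⟩ := Pool.Agent.W999.HB.TP.main c
  have _ : Algebra (ZMod c) κ := ZMod.algebra κ c
  have _ : Algebra (ZMod c) k := ZMod.algebra k c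
  have hκk : Nonempty (κ →ₐ[ZMod c] k) := ⟨IsAlgClosed.lift⟩
  obtain ⟨eκ'⟩ := hκk
  set eκ : κ →+* k := (eκ' : κ →+* k)
  have hOm : ∀ i, ∃ Ω : PadicAlgCl c, IsPrimitiveRoot Ω (d i) ∧
      ∃ h : Ω ∈ R, rs ⟨Ω, h⟩ = eκ (z i) := fun i => exists_Om (hd i) hf (hz i) hR eκ
  choose Ω hΩ hΩz using hOm
  obtain ⟨fe, j', hj', hlt⟩ := exists_fe hN hd0 hdN hsmall hΩ j
    (fun i hi h0 => (hj i).1 h0 hi)
  set ρ := ‖((c : ℕ) : PadicAlgCl c)‖ with hρ
  have hρ0 : 0 < ρ := norm_c_pos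
  have hρ1 : ρ < 1 := norm_c_lt
  have hpos : 0 < dg v := by
    rw [← hres v]
    have : Module.Finite κ (res v) := .of_finite
    exact Module.finrank_pos
  obtain ⟨x, hx1, hx2⟩ := est_point (c := c) hf hN hd hd0 hdN ha hz hR eκ hΩ hΩz (res v) (hres v)
    (fun i => l i v) (fun i e => hε i v e) (fun i => hspec i v) (hY v E.2) hδ hj hj' hlt hw E.1
    hE1 hE2
  have h1 : ee (fun v => Fintype.card (res v)) codim α β E = (x : ℂ) := hx1.symm
  rw [h1] at heq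
  have h2 : x ^ m = (((Fintype.card (res v) : ℕ) : AA) ^ w) ^ m := by
    apply Subtype.ext
    push_cast
    exact heq
  have hcard : Fintype.card (res v) = c ^ (f * dg v) := by
    rw [pow_mul, ← hf, ← hres v]
    exact Module.card_eq_pow_finrank
  have h3 : ‖fe x‖ ^ m = ((ρ ^ (f * dg v)) ^ w) ^ m := by
    rw [← norm_pow, ← map_pow, h2, map_pow, map_pow, map_natCast, norm_pow, norm_pow, hcard]
    push_cast
    rw [norm_pow]
  have h4 : ‖fe x‖ = (ρ ^ (f * dg v)) ^ w :=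
    (pow_left_inj₀ (norm_nonneg _) (by positivity) hm.ne').1 h3
  rw [h4] at hx2
  have h5 : ((ρ ^ (f * dg v)) ^ w) ^ (2 * N) = ρ ^ (2 * (f * N * w) * dg v) := by
    rw [← pow_mul, ← pow_mul]
    congr 1
    ring
  rw [h5, ← pow_mul] at hx2
  have h6 := (pow_le_pow_iff_right_of_lt_one₀ hρ0 hρ1).1 hx2
  have h7 : (2 * (f * N * w) + 1) * dg v = 2 * (f * N * w) * dg v + dg v := by ring
  omega

end Pool.Agent.U926.FM
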