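import Pool.Agent.U926.FM.Gra

/-!
# Generalised Tate classes on products, for graded mixed representations
-/

set_option autoImplicit false

namespace Pool.Agent.U926.FM

open Finset Polynomial TensorProduct Pool.Agent.N876.TC Pool.Agent.N876.FL Pool.Agent.N876.UV
  Pool.Agent.W528.HA Pool.Agent.W528.HB

theorem gen_twist {V : Type} [AddCommGroup V] [Module ℂ V] {A G F : Module.End ℂ V}
    (hF : F = A * G) (hc : Commute A G) {c μ : ℂ} (N : ℕ) (v : V) (hv : G v = c • v) :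
    ((F - (c * μ) • (1 : Module.End ℂ V)) ^ N) v = c ^ N • ((A - μ • (1 : Module.End ℂ V)) ^ N) v := by
  induction N generalizing v with
  | zero => rw [pow_zero, pow_zero, pow_zero, one_smul]
  | succ N ih =>
    have h1 : (F - (c * μ) • (1 : Module.End ℂ V)) v = c • ((A - μ • (1 : Module.End ℂ V)) v) := by
      rw [LinearMap.sub_apply, LinearMap.sub_apply, LinearMap.smul_apply, LinearMap.smul_apply,
        Module.End.one_apply, hF, Module.End.mul_apply, hv, map_smul, smul_sub, smul_smul]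
    have h2 : G ((A - μ • (1 : Module.End ℂ V)) v) = c • ((A - μ • (1 : Module.End ℂ V)) v) := by
      rw [LinearMap.sub_apply, LinearMap.smul_apply, Module.End.one_apply, map_sub, map_smul,
        ← Module.End.mul_apply, ← hc.eq, Module.End.mul_apply, hv, map_smul, smul_sub]
      congr 1
      rw [smul_comm]
    rw [pow_succ, Module.End.mul_apply, h1, map_smul, ih _ h2, smul_smul, ← pow_succ', pow_succ
      (A - μ • (1 : Module.End ℂ V)), Module.End.mul_apply]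

section graded

variable {ι : Type} [Fintype ι] [DecidableEq ι]
  {K W : ι → Type} [∀ i, Fintype (K i)] [∀ i, AddCommGroup (W i)] [∀ i, Module ℂ (W i)]
  [∀ i, FiniteDimensional ℂ (W i)] {T : Type} [Fintype T] [DecidableEq T] {B : T → Type}
  [∀ t, AddCommGroup (B t)] [∀ t, Module ℂ (B t)] [∀ t, FiniteDimensional ℂ (B t)]

theorem proj_gen {q : ℕ} (hq : q ≠ 0) {n : ι → ℕ} {dt : T → ℕ} {Φ : ∀ i, Module.End ℂ (W i)}
    {ΦB : ∀ t, Module.End ℂ (B t)} (hres : NoResG q n dt Φ ΦB)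
    (hα : ∀ i α, (Φ i).HasEigenvalue α → IsAlgebraic ℚ α)
    (hβ : ∀ t β, (ΦB t).HasEigenvalue β → IsAlgebraic ℚ β) (deg : ∀ i, K i → ℕ) {θ : ℂ}
    (hθ : ¬ IsAlgebraic ℚ θ) {m : ℕ} (hm : 0 < m) (w : ℕ)
    {v : (⨂[ℂ] i, ((K i → ℂ) × W i)) ⊗[ℂ] (∀ t, B t)} (hgr : gr deg n dt θ v = θ ^ (2 * w) • v)
    (hv : v ∈ ((MM (fun i => tot (q : ℂ) (deg i) (Φ i)) (pm ΦB)) ^ m).maxGenEigenspace
      ((q : ℂ) ^ (m * w))) :
    MM (fun i => (prj : Module.End ℂ ((K i → ℂ) × W i))) 1 v = v := by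
  classical
  have hθ0 : θ ≠ 0 := by
    rintro rfl
    exact hθ isAlgebraic_zero
  have hqc : (q : ℂ) ≠ 0 := by exact_mod_cast hq
  set A := MM (fun i => tot (q : ℂ) (deg i) (Φ i)) (pm ΦB) with hA
  set G := (gr deg n dt θ : Module.End ℂ ((⨂[ℂ] i, ((K i → ℂ) × W i)) ⊗[ℂ] (∀ t, B t))) with hG
  set F := MM (fun i => tot ((q : ℂ) * θ ^ 2) (deg i) ((θ ^ n i) • Φ i))
    (pm fun t => (θ ^ dt t) • ΦB t) with hF
  have hAG : A * G = F := by
    rw [hA, hG, hF]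
    unfold gr
    rw [MM_mul, pm_mul]
    congr 1
    · funext i
      refine LinearMap.ext fun x => Prod.ext ?_ ?_
      · funext k
        show (q : ℂ) ^ deg i k * ((θ ^ 2) ^ deg i k * x.1 k) = ((q : ℂ) * θ ^ 2) ^ deg i k * x.1 k
        rw [mul_pow]
        ring
      · show Φ i ((θ ^ n i) • x.2) = (θ ^ n i) • Φ i x.2
        rw [map_smul]
    · congr 1
      funext t
      refine LinearMap.ext fun x => ?_
      show ΦB t ((θ ^ dt t) • x) = (θ ^ dt t) • ΦB t x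
      rw [map_smul]
  have hGA : G * A = F := by
    rw [hA, hG, hF]
    unfold gr
    rw [MM_mul, pm_mul]
    congr 1
    funext i
    refine LinearMap.ext fun x => Prod.ext ?_ ?_
    · funext k
      show (θ ^ 2) ^ deg i k * ((q : ℂ) ^ deg i k * x.1 k) = ((q : ℂ) * θ ^ 2) ^ deg i k * x.1 k
      rw [mul_pow]
      ring
    · rfl
  have hcomm : Commute A G := by
    show A * G = G * A
    rw [hAG, hGA]
  have hGm : ∀ j : ℕ, (G ^ j) v = (θ ^ (2 * w)) ^ j • v := by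
    intro j
    induction j with
    | zero => rw [pow_zero, pow_zero, one_smul]; rfl
    | succ j ih =>
      rw [pow_succ, Module.End.mul_apply, hgr, map_smul, ih, smul_smul, ← pow_succ']
  have hFm : v ∈ (F ^ m).maxGenEigenspace ((θ ^ (2 * w)) ^ m * (q : ℂ) ^ (m * w)) := by
    obtain ⟨N, hN⟩ := (Module.End.mem_maxGenEigenspace _ _ _).1 hv
    refine (Module.End.mem_maxGenEigenspace _ _ _).2 ⟨N, ?_⟩
    have h1 : F ^ m = A ^ m * G ^ m := by rw [← hAG, hcomm.mul_pow]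
    rw [gen_twist h1 (hcomm.pow_pow m m) N v (hGm m), hN, smul_zero]
  refine gen_main (fun i => tot ((q : ℂ) * θ ^ 2) (deg i) ((θ ^ n i) • Φ i)) (fun i => prj)
    (fun i x => ((θ ^ n i) • Φ i).HasEigenvalue x)
    (fun i x => ∃ k, x = ((q : ℂ) * θ ^ 2) ^ deg i k)
    (fun i => tot_prj _ _ _) (fun i => prj_prj) (fun i x hx => fac_W hx) (fun i x hx => fac_K hx)
    (pm fun t => (θ ^ dt t) • ΦB t) m ((θ ^ (2 * w)) ^ m * (q : ℂ) ^ (m * w)) ?_ v hFm
  intro I hI x hx1 hx2 β' hβ' heq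
  obtain ⟨t, ht⟩ := pm_eigen hβ'
  obtain ⟨β, hβ1, rfl⟩ := smul_eigen (pow_ne_zero _ hθ0) ht
  have h1 : ∀ i, ∃ α, i ∈ I → (Φ i).HasEigenvalue α ∧ x i = θ ^ n i * α := by
    intro i
    by_cases hi : i ∈ I
    · obtain ⟨α, h2, h3⟩ := smul_eigen (pow_ne_zero _ hθ0) (hx1 i hi)
      exact ⟨α, fun _ => ⟨h2, h3⟩⟩
    · exact ⟨0, fun h => absurd h hi⟩
  choose α hα' using h1
  have h2 : ∀ i, ∃ e : ℕ, i ∉ I → x i = ((q : ℂ) * θ ^ 2) ^ e := by
    intro i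
    by_cases hi : i ∈ I
    · exact ⟨0, fun h => absurd hi h⟩
    · obtain ⟨k, hk⟩ := hx2 i hi
      exact ⟨_, fun _ => hk⟩
  choose e he using h2
  set e' := ∑ i ∈ Iᶜ, e i with he'
  have h3 : ∏ i, x i = θ ^ (∑ i ∈ I, n i + 2 * e') * ((∏ i ∈ I, α i) * (q : ℂ) ^ e') := by
    rw [← Finset.prod_mul_prod_compl I x, prod_congr rfl fun i hi => (hα' i hi).2,
      prod_congr rfl fun i hi => he i (mem_compl.1 hi), prod_mul_distrib, prod_pow_eq_pow_sum,
      prod_pow_eq_pow_sum, mul_pow, pow_add, pow_mul]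
    ring
  rw [h3] at heq
  have h4 : θ ^ (m * (∑ i ∈ I, n i + 2 * e' + dt t)) *
      ((∏ i ∈ I, α i) * (q : ℂ) ^ e' * β) ^ m = θ ^ (m * (2 * w)) * (q : ℂ) ^ (m * w) := by
    rw [pow_mul' θ m (2 * w), ← heq, pow_mul' θ m, ← mul_pow]
    congr 1
    rw [pow_add _ _ (dt t)]
    ring
  have hqalg : IsAlgebraic ℚ (q : ℂ) := isAlgebraic_natCast q
  have hRalg : IsAlgebraic ℚ (((∏ i ∈ I, α i) * (q : ℂ) ^ e' * β) ^ m) := by
    refine IsAlgebraic.pow ?_ m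
    refine (IsAlgebraic.mul ?_ (hqalg.pow e')).mul (hβ t β hβ1)
    refine Finset.prod_induction _ (IsAlgebraic ℚ) (fun a b ha hb => ha.mul hb) isAlgebraic_one ?_
    exact fun i hi => hα i _ (hα' i hi).1
  obtain ⟨h5, h6⟩ := trans_cancel hθ hRalg (hqalg.pow (m * w)) (pow_ne_zero _ hqc) h4
  have h7 := Nat.eq_of_mul_eq_mul_left hm h5
  exact hres I hI α (fun i hi => (hα' i hi).1) t β hβ1 e' m w hm (by omega) h6

variable [∀ i, DecidableEq (K i)]

/-- the generalised Tate classes -/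
theorem gen_graded {q : ℕ} (hq : q ≠ 0) {n : ι → ℕ} {dt : T → ℕ} {Φ : ∀ i, Module.End ℂ (W i)}
    {ΦB : ∀ t, Module.End ℂ (B t)} (hres : NoResG q n dt Φ ΦB)
    (hα : ∀ i α, (Φ i).HasEigenvalue α → IsAlgebraic ℚ α)
    (hβ : ∀ t β, (ΦB t).HasEigenvalue β → IsAlgebraic ℚ β)
    (deg : ∀ i, K i → ℕ) {m : ℕ} (hm : 0 < m) (w : ℕ)
    {v : (⨂[ℂ] i, ((K i → ℂ) × W i)) ⊗[ℂ] (∀ t, B t)}
    (hgr : ∀ θ : ℂ, gr deg n dt θ v = θ ^ (2 * w) • v)
    (hv : v ∈ ((MM (fun i => tot (q : ℂ) (deg i) (Φ i)) (pm ΦB)) ^ m).maxGenEigenspace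
      ((q : ℂ) ^ (m * w))) :
    v = ∑ k : ∀ i, K i, (ev k : ⨂[ℂ] i, ((K i → ℂ) × W i)) ⊗ₜ[ℂ] (cmp k v) ∧
      (∀ (k : ∀ i, K i) (t : T), 2 * ∑ i, deg i (k i) + dt t ≠ 2 * w → cmp k v t = 0) ∧
      ∀ k : ∀ i, K i, ∑ i, deg i (k i) ≤ w → cmp k v ∈ ((pm ΦB) ^ m).maxGenEigenspace
          ((q : ℂ) ^ (m * (w - ∑ i, deg i (k i)))) := by
  have hq0 : (q : ℂ) ≠ 0 := by exact_mod_cast hq
  obtain ⟨θ, hθ⟩ : ∃ θ : ℂ, ¬ IsAlgebraic ℚ θ := by
    obtain ⟨x, hx⟩ := (⟨_, transcendental_liouvilleNumber (le_refl 2)⟩ : ∃ x : ℝ, Transcendental ℤ x)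
    refine ⟨(x : ℂ), fun h => hx ?_⟩
    have h2 : IsAlgebraic ℚ x := by
      have h3 : IsAlgebraic ℚ (algebraMap ℝ ℂ x) := h
      exact (isAlgebraic_algebraMap_iff (algebraMap ℝ ℂ).injective).1 h3
    exact (IsFractionRing.isAlgebraic_iff ℤ ℚ ℝ).2 h2
  have h2 := proj_gen hq hres hα hβ deg hθ hm w (hgr θ) hv
  rw [MM_prj] at h2
  refine ⟨h2.symm, ?_, ?_⟩
  · intro k t hkt
    have h3 := congrArg (cmp k) (hgr θ)
    unfold gr at h3
    rw [cmp_tot, map_smul] at h3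
    have h4 := congrFun h3 t
    have h5 : ((θ ^ 2) ^ (∑ i, deg i (k i)) * θ ^ dt t) • cmp k v t = θ ^ (2 * w) • cmp k v t := by
      rw [mul_smul]
      exact h4
    by_contra h0
    have h6 : (θ ^ 2) ^ (∑ i, deg i (k i)) * θ ^ dt t = θ ^ (2 * w) := by
      have h7 : ((θ ^ 2) ^ (∑ i, deg i (k i)) * θ ^ dt t - θ ^ (2 * w)) • cmp k v t = 0 := by
        rw [sub_smul, h5, sub_self]
      exact sub_eq_zero.1 ((smul_eq_zero.1 h7).resolve_right h0)
    rw [← pow_mul, ← pow_add] at h6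
    have h7 := trans_cancel hθ (R := 1) (Q := 1) isAlgebraic_one isAlgebraic_one one_ne_zero
      (a := 2 * ∑ i, deg i (k i) + dt t) (b := 2 * w) (by rw [h6])
    exact hkt h7.1
  · intro k hk
    have h3 := cmp_gen hq0 deg Φ (pm ΦB) k m hv
    convert h3 using 2
    rw [eq_div_iff (pow_ne_zero _ (pow_ne_zero _ hq0)), ← pow_mul, ← pow_add]
    congr 1
    rw [mul_comm (∑ i, deg i (k i)) m, ← mul_add]
    congr 1
    omega

end graded

end Pool.Agent.U926.FM
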