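import Pool.Agent.N876.FL.Lev

/-!
# Tate classes on products, for graded mixed representations
-/

set_option autoImplicit false

namespace Pool.Agent.U926.FM

open Finset Polynomial TensorProduct Pool.Agent.N876.TC Pool.Agent.N876.FL Pool.Agent.N876.UV
  Pool.Agent.W528.HA Pool.Agent.W528.HB

section graded

variable {ι : Type} [Fintype ι] [DecidableEq ι]
  {K W : ι → Type} [∀ i, Fintype (K i)] [∀ i, AddCommGroup (W i)] [∀ i, Module ℂ (W i)]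
  [∀ i, FiniteDimensional ℂ (W i)] {T : Type} [Fintype T] [DecidableEq T] {B : T → Type}
  [∀ t, AddCommGroup (B t)] [∀ t, Module ℂ (B t)] [∀ t, FiniteDimensional ℂ (B t)]

/-- the componentwise action -/
def pm (h : ∀ t, Module.End ℂ (B t)) : Module.End ℂ (∀ t, B t) :=
  LinearMap.pi fun t => h t ∘ₗ LinearMap.proj t

omit [Fintype T] [DecidableEq T] [∀ t, FiniteDimensional ℂ (B t)] in
theorem pm_apply (h : ∀ t, Module.End ℂ (B t)) (b : ∀ t, B t) (t : T) : pm h b t = h t (b t) := rfl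

omit [Fintype T] [DecidableEq T] [∀ t, FiniteDimensional ℂ (B t)] in
theorem pm_mul (h h' : ∀ t, Module.End ℂ (B t)) : pm h * pm h' = pm fun t => h t * h' t := rfl

omit [Fintype T] [DecidableEq T] [∀ t, FiniteDimensional ℂ (B t)] in
theorem pm_eigen {h : ∀ t, Module.End ℂ (B t)} {β : ℂ} (hβ : (pm h).HasEigenvalue β) :
    ∃ t, (h t).HasEigenvalue β := by
  obtain ⟨b, hb⟩ := hβ.exists_hasEigenvector
  obtain ⟨t, ht⟩ := Function.ne_iff.1 hb.2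
  refine ⟨t, Module.End.hasEigenvalue_of_hasEigenvector (x := b t) ⟨?_, ht⟩⟩
  rw [Module.End.mem_eigenspace_iff]
  have h1 := Module.End.mem_eigenspace_iff.1 hb.1
  have h2 := congrFun h1 t
  exact h2

theorem smul_eigen {V : Type} [AddCommGroup V] [Module ℂ V] {Φ : Module.End ℂ V} {θ x : ℂ}
    (hθ : θ ≠ 0) (h : (θ • Φ).HasEigenvalue x) : ∃ α, Φ.HasEigenvalue α ∧ x = θ * α := by
  obtain ⟨v, hv⟩ := h.exists_hasEigenvector
  refine ⟨x / θ, Module.End.hasEigenvalue_of_hasEigenvector (x := v) ⟨?_, hv.2⟩, by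
    field_simp⟩
  rw [Module.End.mem_eigenspace_iff]
  have h1 := Module.End.mem_eigenspace_iff.1 hv.1
  rw [LinearMap.smul_apply] at h1
  rw [div_eq_inv_mul, mul_smul, ← h1, smul_smul, inv_mul_cancel₀ hθ, one_smul]

/-- the grading operator -/
noncomputable def gr (deg : ∀ i, K i → ℕ) (n : ι → ℕ) (dt : T → ℕ) (θ : ℂ) :
    Module.End ℂ ((⨂[ℂ] i, ((K i → ℂ) × W i)) ⊗[ℂ] (∀ t, B t)) :=
  MM (fun i => tot (θ ^ 2) (deg i) ((θ ^ n i) • (1 : Module.End ℂ (W i))))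
    (pm fun t => (θ ^ dt t) • (1 : Module.End ℂ (B t)))

/-- no resonances in the right degree -/
def NoResG (q : ℕ) (n : ι → ℕ) (dt : T → ℕ) (Φ : ∀ i, Module.End ℂ (W i))
    (ΦB : ∀ t, Module.End ℂ (B t)) : Prop :=
  ∀ I : Finset ι, I.Nonempty → ∀ α : ι → ℂ, (∀ i ∈ I, (Φ i).HasEigenvalue (α i)) →
    ∀ (t : T) (β : ℂ), (ΦB t).HasEigenvalue β → ∀ e m w : ℕ, 0 < m →
      ∑ i ∈ I, n i + 2 * e + dt t = 2 * w →
      ((∏ i ∈ I, α i) * (q : ℂ) ^ e * β) ^ m ≠ (q : ℂ) ^ (m * w)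

theorem trans_cancel {θ : ℂ} (hθ : ¬ IsAlgebraic ℚ θ) {R Q : ℂ} (hR : IsAlgebraic ℚ R)
    (hQ : IsAlgebraic ℚ Q) (hQ0 : Q ≠ 0) {a b : ℕ} (h : θ ^ a * R = θ ^ b * Q) : a = b ∧ R = Q := by
  have hθ0 : θ ≠ 0 := by
    rintro rfl
    exact hθ isAlgebraic_zero
  have hR0 : R ≠ 0 := by
    rintro rfl
    rw [mul_zero] at h
    exact (mul_ne_zero (pow_ne_zero _ hθ0) hQ0) h.symm
  have key : ∀ k : ℕ, 0 < k → ∀ y : ℂ, IsAlgebraic ℚ y → θ ^ k ≠ y := by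
    intro k hk y hy hk2
    apply hθ
    rw [← hk2] at hy
    exact IsAlgebraic.of_pow hk hy
  rcases lt_trichotomy a b with hab | hab | hab
  · exfalso
    obtain ⟨k, rfl⟩ := Nat.exists_eq_add_of_lt hab
    have h1 : θ ^ (k + 1) = R / Q := by
      rw [eq_div_iff hQ0]
      apply mul_left_cancel₀ (pow_ne_zero a hθ0)
      rw [h, add_assoc, pow_add]
      ring
    exact key (k + 1) (Nat.succ_pos k) _ (hR.mul hQ.inv) (by rw [h1, div_eq_mul_inv])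
  · subst hab
    exact ⟨rfl, mul_left_cancel₀ (pow_ne_zero a hθ0) h⟩
  · exfalso
    obtain ⟨k, rfl⟩ := Nat.exists_eq_add_of_lt hab
    have h1 : θ ^ (k + 1) = Q / R := by
      rw [eq_div_iff hR0]
      apply mul_left_cancel₀ (pow_ne_zero b hθ0)
      rw [← h, add_assoc, pow_add]
      ring
    exact key (k + 1) (Nat.succ_pos k) _ (hQ.mul hR.inv) (by rw [h1, div_eq_mul_inv])

theorem proj_graded {q : ℕ} (hq : q ≠ 0) {n : ι → ℕ} {dt : T → ℕ} {Φ : ∀ i, Module.End ℂ (W i)}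
    {ΦB : ∀ t, Module.End ℂ (B t)} (hres : NoResG q n dt Φ ΦB)
    (hα : ∀ i α, (Φ i).HasEigenvalue α → IsAlgebraic ℚ α)
    (hβ : ∀ t β, (ΦB t).HasEigenvalue β → IsAlgebraic ℚ β) (deg : ∀ i, K i → ℕ) {θ : ℂ}
    (hθ : ¬ IsAlgebraic ℚ θ) {m : ℕ} (hm : 0 < m) (w : ℕ)
    {v : (⨂[ℂ] i, ((K i → ℂ) × W i)) ⊗[ℂ] (∀ t, B t)} (hgr : gr deg n dt θ v = θ ^ (2 * w) • v)
    (hv : ((MM (fun i => tot (q : ℂ) (deg i) (Φ i)) (pm ΦB)) ^ m) v = (q : ℂ) ^ (m * w) • v) :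
    MM (fun i => (prj : Module.End ℂ ((K i → ℂ) × W i))) 1 v = v := by
  classical
  have hθ0 : θ ≠ 0 := by
    rintro rfl
    exact hθ isAlgebraic_zero
  have hqc : (q : ℂ) ≠ 0 := by exact_mod_cast hq
  set A := MM (fun i => tot (q : ℂ) (deg i) (Φ i)) (pm ΦB) with hA
  set G := (gr deg n dt θ : Module.End ℂ ((⨂[ℂ] i, ((K i → ℂ) × W i)) ⊗[ℂ] (∀ t, B t))) with hG
  set F := MM (fun i => tot ((q : ℂ) * θ ^ 2) (deg i) ((θ ^ n i) • Φ i))
    (pm fun t => (θ ^ dt t) • ΦB t) with hF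
  have hAG : A * G = F := by
    rw [hA, hG, hF]
    unfold gr
    rw [MM_mul, pm_mul]
    congr 1
    · funext i
      refine LinearMap.ext fun x => Prod.ext ?_ ?_
      · funext k
        show (q : ℂ) ^ deg i k * ((θ ^ 2) ^ deg i k * x.1 k) = ((q : ℂ) * θ ^ 2) ^ deg i k * x.1 k
        rw [mul_pow]
        ring
      · show Φ i ((θ ^ n i) • x.2) = (θ ^ n i) • Φ i x.2
        rw [map_smul]
    · congr 1
      funext t
      refine LinearMap.ext fun x => ?_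
      show ΦB t ((θ ^ dt t) • x) = (θ ^ dt t) • ΦB t x
      rw [map_smul]
  have hGA : G * A = F := by
    rw [hA, hG, hF]
    unfold gr
    rw [MM_mul, pm_mul]
    congr 1
    funext i
    refine LinearMap.ext fun x => Prod.ext ?_ ?_
    · funext k
      show (θ ^ 2) ^ deg i k * ((q : ℂ) ^ deg i k * x.1 k) = ((q : ℂ) * θ ^ 2) ^ deg i k * x.1 k
      rw [mul_pow]
      ring
    · rfl
  have hcomm : Commute A G := by
    show A * G = G * A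
    rw [hAG, hGA]
  have hGm : ∀ j : ℕ, (G ^ j) v = (θ ^ (2 * w)) ^ j • v := by
    intro j
    induction j with
    | zero => rw [pow_zero, pow_zero, one_smul]; rfl
    | succ j ih =>
      rw [pow_succ, Module.End.mul_apply, hgr, map_smul, ih, smul_smul, ← pow_succ']
  have hFm : (F ^ m) v = ((q : ℂ) ^ (m * w) * (θ ^ (2 * w)) ^ m) • v := by
    rw [← hAG, hcomm.mul_pow, Module.End.mul_apply, hGm, map_smul, hv, smul_smul]
    congr 1
    ring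
  refine gen_main (fun i => tot ((q : ℂ) * θ ^ 2) (deg i) ((θ ^ n i) • Φ i)) (fun i => prj)
    (fun i x => ((θ ^ n i) • Φ i).HasEigenvalue x)
    (fun i x => ∃ k, x = ((q : ℂ) * θ ^ 2) ^ deg i k)
    (fun i => tot_prj _ _ _) (fun i => prj_prj) (fun i x hx => fac_W hx) (fun i x hx => fac_K hx)
    (pm fun t => (θ ^ dt t) • ΦB t) m ((q : ℂ) ^ (m * w) * (θ ^ (2 * w)) ^ m) ?_ v
    (mem_gen_of_eig _ hFm)
  intro I hI x hx1 hx2 β' hβ' heq
  obtain ⟨t, ht⟩ := pm_eigen hβ'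
  obtain ⟨β, hβ1, rfl⟩ := smul_eigen (pow_ne_zero _ hθ0) ht
  have h1 : ∀ i, ∃ α, i ∈ I → (Φ i).HasEigenvalue α ∧ x i = θ ^ n i * α := by
    intro i
    by_cases hi : i ∈ I
    · obtain ⟨α, h2, h3⟩ := smul_eigen (pow_ne_zero _ hθ0) (hx1 i hi)
      exact ⟨α, fun _ => ⟨h2, h3⟩⟩
    · exact ⟨0, fun h => absurd h hi⟩
  choose α hα' using h1
  have h2 : ∀ i, ∃ e : ℕ, i ∉ I → x i = ((q : ℂ) * θ ^ 2) ^ e := by
    intro i
    by_cases hi : i ∈ I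
    · exact ⟨0, fun h => absurd hi h⟩
    · obtain ⟨k, hk⟩ := hx2 i hi
      exact ⟨_, fun _ => hk⟩
  choose e he using h2
  set e' := ∑ i ∈ Iᶜ, e i with he'
  have h3 : ∏ i, x i = θ ^ (∑ i ∈ I, n i + 2 * e') * ((∏ i ∈ I, α i) * (q : ℂ) ^ e') := by
    rw [← Finset.prod_mul_prod_compl I x, prod_congr rfl fun i hi => (hα' i hi).2,
      prod_congr rfl fun i hi => he i (mem_compl.1 hi), prod_mul_distrib, prod_pow_eq_pow_sum,
      prod_pow_eq_pow_sum, mul_pow, pow_add, pow_mul]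
    ring
  rw [h3] at heq
  have h4 : θ ^ (m * (∑ i ∈ I, n i + 2 * e' + dt t)) *
      ((∏ i ∈ I, α i) * (q : ℂ) ^ e' * β) ^ m = θ ^ (m * (2 * w)) * (q : ℂ) ^ (m * w) := by
    rw [mul_comm (θ ^ (m * (2 * w))), pow_mul' θ m (2 * w), ← heq, pow_mul' θ m, ← mul_pow]
    congr 1
    rw [pow_add _ _ (dt t)]
    ring
  have hqalg : IsAlgebraic ℚ (q : ℂ) := isAlgebraic_natCast q
  have hRalg : IsAlgebraic ℚ (((∏ i ∈ I, α i) * (q : ℂ) ^ e' * β) ^ m) := by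
    refine IsAlgebraic.pow ?_ m
    refine (IsAlgebraic.mul ?_ (hqalg.pow e')).mul (hβ t β hβ1)
    refine Finset.prod_induction _ (IsAlgebraic ℚ) (fun a b ha hb => ha.mul hb) isAlgebraic_one ?_
    exact fun i hi => hα i _ (hα' i hi).1
  obtain ⟨h5, h6⟩ := trans_cancel hθ hRalg (hqalg.pow (m * w)) (pow_ne_zero _ hqc) h4
  have h7 := Nat.eq_of_mul_eq_mul_left hm h5
  exact hres I hI α (fun i hi => (hα' i hi).1) t β hβ1 e' m w hm (by omega) h6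

variable [∀ i, DecidableEq (K i)]

/-- the Tate classes -/
theorem gal_graded {q : ℕ} (hq : q ≠ 0) {Γ : Type} [Group Γ] (χ : Γ →* ℂˣ) (σ : Γ)
    (hσ : ((χ σ : ℂˣ) : ℂ) = (q : ℂ)) {n : ι → ℕ} {dt : T → ℕ}
    (ρ : ∀ i, Γ →* Module.End ℂ (W i)) (ρB : ∀ t, Γ →* Module.End ℂ (B t))
    (hres : NoResG q n dt (fun i => ρ i σ) (fun t => ρB t σ))
    (hα : ∀ i α, (ρ i σ).HasEigenvalue α → IsAlgebraic ℚ α)
    (hβ : ∀ t β, (ρB t σ).HasEigenvalue β → IsAlgebraic ℚ β)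
    (deg : ∀ i, K i → ℕ) (Γ' : Subgroup Γ) [Γ'.FiniteIndex] (w : ℕ)
    {v : (⨂[ℂ] i, ((K i → ℂ) × W i)) ⊗[ℂ] (∀ t, B t)}
    (hgr : ∀ θ : ℂ, gr deg n dt θ v = θ ^ (2 * w) • v)
    (hv : ∀ γ ∈ Γ', MM (fun i => tot ((χ γ : ℂˣ) : ℂ) (deg i) (ρ i γ)) (pm fun t => ρB t γ) v =
      ((χ γ : ℂˣ) : ℂ) ^ w • v) :
    v = ∑ k : ∀ i, K i, (ev k : ⨂[ℂ] i, ((K i → ℂ) × W i)) ⊗ₜ[ℂ] (cmp k v) ∧
      (∀ (k : ∀ i, K i) (t : T), 2 * ∑ i, deg i (k i) + dt t ≠ 2 * w → cmp k v t = 0) ∧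
      ∀ k : ∀ i, K i, ∑ i, deg i (k i) ≤ w → ∀ γ ∈ Γ', ∀ t, ρB t γ (cmp k v t) =
          ((χ γ : ℂˣ) : ℂ) ^ (w - ∑ i, deg i (k i)) • cmp k v t := by
  obtain ⟨m, hm, hmΓ⟩ := Subgroup.exists_pow_mem_of_index_ne_zero
    (Subgroup.FiniteIndex.index_ne_zero (H := Γ')) σ
  have hm0 : 0 < m := hm
  set ρT : Γ →* Module.End ℂ (∀ t, B t) :=
    { toFun := fun γ => pm fun t => ρB t γ
      map_one' := by
        refine LinearMap.ext fun b => ?_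
        funext t
        show ρB t 1 (b t) = b t
        rw [map_one]
        rfl
      map_mul' := by
        intro γ γ'
        refine LinearMap.ext fun b => ?_
        funext t
        show ρB t (γ * γ') (b t) = ρB t γ (ρB t γ' (b t))
        rw [map_mul]
        rfl } with hρT
  have h1 := hv (σ ^ m) hmΓ.2
  have h1' : MM (fun i => tot ((χ (σ ^ m) : ℂˣ) : ℂ) (deg i) (ρ i (σ ^ m))) (ρT (σ ^ m)) v =
      ((χ (σ ^ m) : ℂˣ) : ℂ) ^ w • v := h1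
  rw [← act_pow, map_pow, Units.val_pow_eq_pow_val, hσ, ← pow_mul] at h1'
  obtain ⟨θ, hθ⟩ : ∃ θ : ℂ, ¬ IsAlgebraic ℚ θ := by
    obtain ⟨x, hx⟩ := (⟨_, transcendental_liouvilleNumber (le_refl 2)⟩ : ∃ x : ℝ, Transcendental ℤ x)
    refine ⟨(x : ℂ), fun h => hx ?_⟩
    have h2 : IsAlgebraic ℚ x := by
      have h3 : IsAlgebraic ℚ (algebraMap ℝ ℂ x) := h
      exact (isAlgebraic_algebraMap_iff (algebraMap ℝ ℂ).injective).1 h3
    exact (IsFractionRing.isAlgebraic_iff ℤ ℚ ℝ).2 h2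
  have h2 := proj_graded hq hres hα hβ deg hθ hm0 w (hgr θ) h1'
  rw [MM_prj] at h2
  refine ⟨h2.symm, ?_, ?_⟩
  · intro k t hkt
    have h3 := congrArg (cmp k) (hgr θ)
    unfold gr at h3
    rw [cmp_tot, map_smul] at h3
    have h4 := congrFun h3 t
    have h5 : ((θ ^ 2) ^ (∑ i, deg i (k i)) * θ ^ dt t) • cmp k v t = θ ^ (2 * w) • cmp k v t := by
      rw [mul_smul]
      exact h4
    by_contra h0
    have h6 : (θ ^ 2) ^ (∑ i, deg i (k i)) * θ ^ dt t = θ ^ (2 * w) := by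
      have h7 : ((θ ^ 2) ^ (∑ i, deg i (k i)) * θ ^ dt t - θ ^ (2 * w)) • cmp k v t = 0 := by
        rw [sub_smul, h5, sub_self]
      exact sub_eq_zero.1 ((smul_eq_zero.1 h7).resolve_right h0)
    rw [← pow_mul, ← pow_add] at h6
    have h7 := trans_cancel hθ (R := 1) (Q := 1) isAlgebraic_one isAlgebraic_one one_ne_zero
      (a := 2 * ∑ i, deg i (k i) + dt t) (b := 2 * w) (by rw [h6])
    exact hkt h7.1
  · intro k hk γ hγ t
    have h6 := congrArg (cmp k) (hv γ hγ)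
    rw [cmp_tot, map_smul] at h6
    have h7 : ((χ γ : ℂˣ) : ℂ) ^ (∑ i, deg i (k i)) ≠ 0 := pow_ne_zero _ (Units.ne_zero _)
    have h8 : ((χ γ : ℂˣ) : ℂ) ^ w = ((χ γ : ℂˣ) : ℂ) ^ (∑ i, deg i (k i)) *
        ((χ γ : ℂˣ) : ℂ) ^ (w - ∑ i, deg i (k i)) := by
      rw [← pow_add]
      congr 1
      omega
    rw [h8, mul_smul] at h6
    exact congrFun (smul_right_injective _ h7 h6) t

end graded

/-! ### the absence of resonances -/

variable {c : ℕ} [Fact c.Prime]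

/-- the contradiction -/
theorem real_contra' {P Q y : ℝ} (hQ0 : 0 < Q) (hQ1 : Q < 1) (hy0 : 0 ≤ y) {S lam e w j : ℕ}
    (hfe : P ^ 2 < Q ^ (S + lam)) (h3 : P * Q ^ e * y = Q ^ w) (hy : y ≤ Q ^ (j - lam))
    (hw : S + 2 * e + j = 2 * w) : False := by
  have h4 : P ^ 2 * Q ^ (2 * e) * y ^ 2 = Q ^ (2 * w) := by
    have h5 : Q ^ (2 * w) = (Q ^ w) ^ 2 := by rw [← pow_mul, mul_comm]
    rw [h5, ← h3]
    ring
  have h5 : y ^ 2 ≤ Q ^ (2 * (j - lam)) := by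
    rw [mul_comm 2, pow_mul]
    exact pow_le_pow_left₀ hy0 hy 2
  have h6 : Q ^ (2 * w) < Q ^ (S + lam) * Q ^ (2 * e) * Q ^ (2 * (j - lam)) := by
    rw [← h4]
    calc P ^ 2 * Q ^ (2 * e) * y ^ 2 ≤ P ^ 2 * Q ^ (2 * e) * Q ^ (2 * (j - lam)) :=
          mul_le_mul_of_nonneg_left h5 (by positivity)
      _ < _ := mul_lt_mul_of_pos_right (mul_lt_mul_of_pos_right hfe (by positivity))
          (by positivity)
  rw [← pow_add, ← pow_add] at h6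
  have h7 := (pow_lt_pow_iff_right_of_lt_one₀ hQ0 hQ1).1 h6
  omega

theorem nores_mixed {ι : Type} {N lam : ℕ} (hN : 0 < N) {d n s : ι → ℕ}
    (hd : ∀ i, 2 ≤ d i) (hdN : ∀ i, d i ∣ N) (κ : Type) [Field κ] [Fintype κ] [CharP κ c] {f : ℕ}
    (hf : Fintype.card κ = c ^ f) {z : ι → κ} (hz : ∀ i, IsPrimitiveRoot (z i) (d i))
    (l : ∀ i, Fin (s i) → Fin (n i + 1) → κ) (a : ∀ i, Fin (s i) → ℕ)
    (ha : ∀ i k, (a i k).Coprime (d i))
    {W : ι → Type} [∀ i, AddCommGroup (W i)] [∀ i, Module ℂ (W i)]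
    [∀ i, FiniteDimensional ℂ (W i)] {Φ g : ∀ i, Module.End ℂ (W i)}
    (h : ∀ i, IsCov (d i) (l i) (a i) (z i) (Φ i) (g i))
    (hα0 : ∀ i, ¬ (Φ i).HasEigenvalue 0)
    (hsmall : ∀ I : Finset ι, I.Nonempty → SmallI c f N lam d n s a I)
    {T : Type} {dt : T → ℕ} {B : T → Type} [∀ t, AddCommGroup (B t)] [∀ t, Module ℂ (B t)]
    {ΦB : ∀ t, Module.End ℂ (B t)}
    (hB : ∀ t β, (ΦB t).HasEigenvalue β →
      IsIntegral ℤ (β / (Fintype.card κ : ℂ) ^ (dt t - lam))) :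
    NoResG (Fintype.card κ) n dt Φ ΦB := by
  classical
  intro I hI α hα t β hβ e m w hm hw heq
  have hα0' : ∀ i ∈ I, α i ≠ 0 := by
    intro i hi h0
    apply hα0 i
    rw [← h0]
    exact hα i hi
  obtain ⟨hx, fe, hfe⟩ := exists_small' hN hd hdN κ hf hz l a ha h (hsmall I hI) hα hα0'
  set Q := ‖((Fintype.card κ : ℕ) : PadicAlgCl c)‖ with hQ
  have hQ0 : 0 < Q := norm_card_pos (c := c) (L := κ)
  have hQ1 : Q < 1 := norm_card_lt (c := c) (L := κ)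
  have hqc : ((Fintype.card κ : ℕ) : ℂ) ≠ 0 := by exact_mod_cast Fintype.card_ne_zero
  have hint := hB t β hβ
  set γ := β / (Fintype.card κ : ℂ) ^ (dt t - lam) with hγ
  have hγA : γ ∈ AA := mem_algebraicClosure_iff.mpr (hint.tower_top (A := ℚ)).isAlgebraic
  have hint' : IsIntegral ℤ (⟨γ, hγA⟩ : AA) := by
    have h1 : IsIntegral ℤ (algebraMap AA ℂ ⟨γ, hγA⟩) := hint
    exact (isIntegral_algebraMap_iff (algebraMap AA ℂ).injective).1 h1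
  have hγ1 : ‖fe ⟨γ, hγA⟩‖ ≤ 1 := norm_int_le (map_isIntegral_int fe hint')
  set β' : AA := ⟨γ, hγA⟩ * ((Fintype.card κ : ℕ) : AA) ^ (dt t - lam) with hβ'
  have hβ'c : (β' : ℂ) = β := by
    rw [hβ']
    push_cast
    rw [hγ, div_mul_cancel₀ _ (pow_ne_zero _ hqc)]
  have hβn : ‖fe β'‖ ≤ Q ^ (dt t - lam) := by
    rw [hβ', map_mul, norm_mul, map_pow, map_natCast, norm_pow, ← hQ]
    exact mul_le_of_le_one_left (pow_nonneg hQ0.le _) hγ1
  have h1 : ((∏ i ∈ I.attach, (⟨α i.1, hx i.1 i.2⟩ : AA)) *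
      ((Fintype.card κ : ℕ) : AA) ^ e * β') ^ m = ((Fintype.card κ : ℕ) : AA) ^ (m * w) := by
    apply Subtype.ext
    push_cast
    rw [← heq, ← prod_attach I, hβ'c]
  have h2 := congrArg norm (congrArg fe h1)
  rw [map_pow, map_mul, map_mul, map_pow, map_pow, map_natCast, map_prod, norm_pow,
    norm_mul, norm_mul, norm_pow, norm_pow, norm_prod, ← hQ, pow_mul'] at h2
  set P := ∏ i ∈ I.attach, ‖fe ⟨α i.1, hx i.1 i.2⟩‖ with hP
  have hP0 : 0 ≤ P := prod_nonneg fun i _ => norm_nonneg _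
  have h3 : P * Q ^ e * ‖fe β'‖ = Q ^ w :=
    (pow_left_inj₀ (mul_nonneg (mul_nonneg hP0 (pow_nonneg hQ0.le e)) (norm_nonneg _))
      (pow_nonneg hQ0.le w) hm.ne').mp h2
  exact real_contra' hQ0 hQ1 (norm_nonneg _) hfe h3 hβn hw

end Pool.Agent.U926.FM
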