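import Pool.Agent.U926.FE.Const

/-!
# L-functions of families of products with mixed families: orders of poles
-/

set_option autoImplicit false

namespace Pool.Agent.U926.FM

open Finset Polynomial Filter Topology Pool.Agent.N876.UV Pool.Agent.U926.FE

variable {ι : Type} [Fintype ι] [DecidableEq ι] {P : Type} {dg : P → ℕ} {Q : P → ℕ} {n d : ι → ℕ}
  {K : ι → Type} [∀ i, Fintype (K i)] {codim : ∀ i, K i → ℕ}
  {J : ι → P → Type} [∀ i v, Fintype (J i v)] {α : ∀ i v, J i v → ℂ} {ε : ∀ i v, J i v → ℕ}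
  {JY : P → Type} [∀ v, Fintype (JY v)] {dY : ∀ v, JY v → ℕ} {β : ∀ v, JY v → ℂ}
  {q D b : ℕ}

omit [DecidableEq ι] [∀ i, Fintype (K i)] [∀ i v, Fintype (J i v)] [∀ v, Fintype (JY v)] in
theorem ee_norm_le (hα : ∀ i v e, ‖α i v e‖ ^ 2 = (Q v : ℝ) ^ n i)
    (hβ : ∀ v e, ‖β v e‖ ^ 2 ≤ (Q v : ℝ) ^ dY v e) {v : P} (E : (∀ i, K i ⊕ J i v) × JY v) :
    ‖ee Q codim α β E‖ ^ 2 ≤ (Q v : ℝ) ^ dd n codim dY E := by
  unfold ee dd
  rw [norm_mul, norm_prod, mul_pow, ← Finset.prod_pow, pow_add, ← prod_pow_eq_pow_sum]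
  have h1 : ∏ i, ‖eg (Q v) (codim i) (α i v) (E.1 i)‖ ^ 2 =
      ∏ i, (Q v : ℝ) ^ dgr (codim i) (n i) (E.1 i) :=
    prod_congr rfl fun i _ => eg_norm (hα i v) (E.1 i)
  rw [h1]
  exact mul_le_mul_of_nonneg_left (hβ v E.2) (prod_nonneg fun i _ => pow_nonneg (Nat.cast_nonneg _) _)

theorem norm_le_of_sq_le {x : ℂ} {q Q dg w : ℕ} (hQ : Q = q ^ dg)
    (h : ‖x‖ ^ 2 ≤ (Q : ℝ) ^ (2 * w)) : ‖x‖ ≤ ((q : ℝ) ^ w) ^ dg := by
  have h1 : ‖x‖ ^ 2 ≤ (((q : ℝ) ^ w) ^ dg) ^ 2 := by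
    refine h.trans (le_of_eq ?_)
    rw [hQ]
    push_cast
    rw [← pow_mul, ← pow_mul, ← pow_mul]
    congr 1
    ring
  exact (pow_le_pow_iff_left₀ (norm_nonneg _) (by positivity) two_ne_zero).1 h1

/-- The factorisation of the `L`-function. -/
theorem key (hq : 1 < q) (hP : IsBase q D dg) (hQ : ∀ v, Q v = q ^ dg v) (hd : ∀ i, 0 < d i)
    (hε : ∀ i v e, ¬ d i ∣ ε i v e) (hα : ∀ i v e, ‖α i v e‖ ^ 2 = (Q v : ℝ) ^ n i)
    (hβ : ∀ v e, ‖β v e‖ ^ 2 ≤ (Q v : ℝ) ^ dY v e) (hbJ : ∀ i v, Fintype.card (J i v) ≤ b)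
    (hbY : ∀ v, Fintype.card (JY v) ≤ b) {w : ℕ}
    (hpart : ∀ j : ι → ℕ, (∃ i, ¬ d i ∣ j i) →
      OrderAt (prt dg Q n d codim α ε dY β (2 * w) j) (1 / (q : ℂ) ^ (w + D)) 0) :
    ∃ Ψ : ℂ → ℂ, HasPole Ψ ((w + D : ℕ) : ℝ) 0 ∧ ∀ s : ℝ, ((w + D : ℕ) : ℝ) < s →
      Lf q (tot dg Q n codim α dY β (2 * w)) s =
        (∏ k ∈ fs (fun k : ∀ i, K i => ∑ i, codim i (k i) ≤ w),
          Lf q (yp dg dY β (2 * (w - ∑ i, codim i (k i))))
            ((s : ℂ) - (∑ i, codim i (k i) : ℕ))) * Ψ s := by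
  classical
  have hcard := card_index (K := K) hbJ hbY
  have hbd : ∀ (j : ι → ℕ) (v : P) (E : (∀ i, K i ⊕ J i v) × JY v),
      (dd n codim dY E = 2 * w ∧ ∀ i, exq (ε i v) (E.1 i) ≡ j i [MOD d i]) →
      ‖ee Q codim α β E‖ ≤ ((q : ℝ) ^ w) ^ dg v := by
    intro j v E hE
    refine norm_le_of_sq_le (hQ v) ?_
    have h1 := ee_norm_le (codim := codim) hα hβ E
    rwa [hE.1] at h1
  refine ⟨fun s => ∏ j ∈ (Fintype.piFinset (fun i => range (d i))).erase 0,
    Lf q (prt dg Q n d codim α ε dY β (2 * w) j) s, ?_, ?_⟩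
  · have h1 := HasPole.prod ((Fintype.piFinset (fun i => range (d i))).erase 0)
      (Φ := fun j s => Lf q (prt dg Q n d codim α ε dY β (2 * w) j) s)
      (a := ((w + D : ℕ) : ℝ)) (r := fun _ => 0) (by
        intro j hj
        obtain ⟨hj0, hj1⟩ := mem_erase.1 hj
        have hj2 : ∃ i, ¬ d i ∣ j i := by
          by_contra h4
          push Not at h4
          apply hj0
          funext i
          exact Nat.eq_zero_of_dvd_of_lt (h4 i) (mem_range.1 (Fintype.mem_piFinset.1 hj1 i))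
        exact hasPole_zero hq hP hcard (hbd j) (hpart j hj2))
    rwa [sum_const_zero] at h1
  · intro s hs
    set x := (q : ℂ) ^ (-(s : ℂ)) with hx
    have hlt := qpow_lt hq hs
    have hmul : ∀ j : ι → ℕ, Multipliable fun v =>
        ((prt dg Q n d codim α ε dY β (2 * w) j v).eval x)⁻¹ := fun j =>
      multipliable_fac hq hP hcard (by positivity) (hbd j) hlt
    have h1 : Lf q (tot dg Q n codim α dY β (2 * w)) s =
        ∏ j ∈ Fintype.piFinset (fun i => range (d i)),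
          Lf q (prt dg Q n d codim α ε dY β (2 * w) j) s := by
      unfold Lf
      rw [← Multipliable.tprod_finsetProd fun j _ => hmul j]
      refine tprod_congr fun v => ?_
      rw [tot_eq (ε := ε) hd, eval_prod, Finset.prod_inv_distrib]
    have h2 : (0 : ι → ℕ) ∈ Fintype.piFinset (fun i => range (d i)) :=
      Fintype.mem_piFinset.2 fun i => mem_range.2 (hd i)
    rw [h1, ← mul_prod_erase _ _ h2]
    congr 1
    -- the trivial character
    have hmulY : ∀ k ∈ fs (fun k : ∀ i, K i => 2 * ∑ i, codim i (k i) ≤ 2 * w),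
        Multipliable fun v =>
          ((yp dg dY β (2 * w - 2 * ∑ i, codim i (k i)) v).eval
            ((q : ℂ) ^ (∑ i, codim i (k i)) * x))⁻¹ := by
      intro k hk
      have hk' : ∑ i, codim i (k i) ≤ w := by
        have := mem_fs.1 hk
        omega
      refine multipliable_fac (R0 := (q : ℝ) ^ (w - ∑ i, codim i (k i))) hq hP hbY (by positivity)
        ?_ ?_
      · intro v e he
        refine norm_le_of_sq_le (hQ v) ?_
        have h3 := hβ v e
        rwa [he, ← Nat.mul_sub] at h3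
      · refine lt_of_le_of_lt (le_of_eq ?_) hlt
        rw [norm_mul, norm_pow, Complex.norm_natCast]
        have h3 : (q : ℝ) ^ w = (q : ℝ) ^ (w - ∑ i, codim i (k i)) *
            (q : ℝ) ^ (∑ i, codim i (k i)) := by
          rw [← pow_add, Nat.sub_add_cancel hk']
        rw [h3]
        ring
    have h3 : Lf q (prt dg Q n d codim α ε dY β (2 * w) 0) s =
        ∏ k ∈ fs (fun k : ∀ i, K i => 2 * ∑ i, codim i (k i) ≤ 2 * w),
          ∏' v, ((yp dg dY β (2 * w - 2 * ∑ i, codim i (k i)) v).eval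
            ((q : ℂ) ^ (∑ i, codim i (k i)) * x))⁻¹ := by
      unfold Lf
      rw [← Multipliable.tprod_finsetProd hmulY]
      refine tprod_congr fun v => ?_
      rw [prt_zero hQ hε, eval_prod, ← Finset.prod_inv_distrib]
      refine prod_congr rfl fun k _ => ?_
      rw [eval_comp, eval_mul, eval_C, eval_X]
    rw [h3]
    have h4 : fs (fun k : ∀ i, K i => 2 * ∑ i, codim i (k i) ≤ 2 * w) =
        fs (fun k : ∀ i, K i => ∑ i, codim i (k i) ≤ w) := by
      ext k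
      rw [mem_fs, mem_fs]
      omega
    rw [h4]
    refine prod_congr rfl fun k _ => ?_
    unfold Lf
    refine tprod_congr fun v => ?_
    rw [hx, qpow_shift hq, Nat.mul_sub]

/-- The orders of the poles. -/
theorem orders (hq : 1 < q) (hP : IsBase q D dg) (hQ : ∀ v, Q v = q ^ dg v) (hd : ∀ i, 0 < d i)
    (hε : ∀ i v e, ¬ d i ∣ ε i v e) (hα : ∀ i v e, ‖α i v e‖ ^ 2 = (Q v : ℝ) ^ n i)
    (hβ : ∀ v e, ‖β v e‖ ^ 2 ≤ (Q v : ℝ) ^ dY v e) (hbJ : ∀ i v, Fintype.card (J i v) ≤ b)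
    (hbY : ∀ v, Fintype.card (JY v) ≤ b)
    (hpart : ∀ (w : ℕ) (j : ι → ℕ), (∃ i, ¬ d i ∣ j i) →
      OrderAt (prt dg Q n d codim α ε dY β (2 * w) j) (1 / (q : ℂ) ^ (w + D)) 0)
    (k0 : ∀ i, K i) (hk0 : ∀ i k, codim i k = 0 ↔ k = k0 i) (r : ℕ → ℤ) :
    (∀ w : ℕ, HasPole (Lf q (tot dg Q n codim α dY β (2 * w))) ((w + D : ℕ) : ℝ)
      (∑ k ∈ fs (fun k : ∀ i, K i => ∑ i, codim i (k i) ≤ w), r (w - ∑ i, codim i (k i)))) ↔
    ∀ w : ℕ, HasPole (Lf q (yp dg dY β (2 * w))) ((w + D : ℕ) : ℝ) (r w) := by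
  classical
  have hshift : ∀ (w : ℕ) (k : ∀ i, K i), ∑ i, codim i (k i) ≤ w →
      HasPole (Lf q (yp dg dY β (2 * (w - ∑ i, codim i (k i)))))
        ((w - ∑ i, codim i (k i) + D : ℕ) : ℝ) (r (w - ∑ i, codim i (k i))) →
      HasPole (fun s => Lf q (yp dg dY β (2 * (w - ∑ i, codim i (k i))))
        (s - (∑ i, codim i (k i) : ℕ))) ((w + D : ℕ) : ℝ) (r (w - ∑ i, codim i (k i))) := by
    intro w k hk h
    have h1 := h.shift ((∑ i, codim i (k i) : ℕ) : ℝ)
    have h2 : ((w - ∑ i, codim i (k i) + D : ℕ) : ℝ) + ((∑ i, codim i (k i) : ℕ) : ℝ) =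
        ((w + D : ℕ) : ℝ) := by
      rw [← Nat.cast_add]
      congr 1
      omega
    rw [h2] at h1
    exact h1.congr fun s _ => by rw [Complex.ofReal_natCast]
  constructor
  · intro h w
    induction w using Nat.strong_induction_on with
    | _ w ih =>
      obtain ⟨Ψ, hΨ, he⟩ := key hq hP hQ hd hε hα hβ hbJ hbY (hpart w)
      have hmem : k0 ∈ fs (fun k : ∀ i, K i => ∑ i, codim i (k i) ≤ w) := by
        rw [mem_fs]
        have : ∑ i, codim i (k0 i) = 0 := sum_eq_zero fun i _ => (hk0 i _).2 rfl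
        omega
      have hz : ∑ i, codim i (k0 i) = 0 := sum_eq_zero fun i _ => (hk0 i _).2 rfl
      have hrest := HasPole.prod
        ((fs (fun k : ∀ i, K i => ∑ i, codim i (k i) ≤ w)).erase k0)
        (Φ := fun k s => Lf q (yp dg dY β (2 * (w - ∑ i, codim i (k i))))
          (s - (∑ i, codim i (k i) : ℕ))) (a := ((w + D : ℕ) : ℝ))
        (r := fun k => r (w - ∑ i, codim i (k i))) (by
          intro k hk
          obtain ⟨hk1, hk2⟩ := mem_erase.1 hk
          have hk3 := mem_fs.1 hk2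
          have hpos : 0 < ∑ i, codim i (k i) := by
            rw [Nat.pos_iff_ne_zero]
            intro h0
            apply hk1
            funext i
            exact (hk0 i _).1 ((sum_eq_zero_iff.1 h0) i (mem_univ i))
          exact hshift w k hk3 (ih _ (by omega)))
      have h1 := (h w).of_mul (hrest.mul hΨ) (Φ := Lf q (yp dg dY β (2 * w))) (by
        intro s hs
        rw [he s hs, ← mul_prod_erase _ _ hmem, hz, Nat.sub_zero, Nat.cast_zero, sub_zero,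
          mul_assoc])
      have h2 : (∑ k ∈ fs (fun k : ∀ i, K i => ∑ i, codim i (k i) ≤ w),
          r (w - ∑ i, codim i (k i))) - (∑ k ∈ (fs (fun k : ∀ i, K i =>
            ∑ i, codim i (k i) ≤ w)).erase k0, r (w - ∑ i, codim i (k i)) + 0) = r w := by
        rw [← add_sum_erase _ _ hmem, hz, Nat.sub_zero]
        ring
      rwa [h2] at h1
  · intro h w
    obtain ⟨Ψ, hΨ, he⟩ := key hq hP hQ hd hε hα hβ hbJ hbY (hpart w)
    have h1 := HasPole.prod (fs (fun k : ∀ i, K i => ∑ i, codim i (k i) ≤ w))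
      (Φ := fun k s => Lf q (yp dg dY β (2 * (w - ∑ i, codim i (k i))))
          (s - (∑ i, codim i (k i) : ℕ))) (a := ((w + D : ℕ) : ℝ))
      (r := fun k => r (w - ∑ i, codim i (k i)))
      (fun k hk => by
        have hk3 := mem_fs.1 hk
        exact hshift w k hk3 (h _))
    have h2 := h1.mul hΨ
    rw [add_zero] at h2
    exact h2.congr fun s hs => (he s hs).symm

/-! ### constant families -/

/-- twists of the zeta function of the base by numbers of absolute value less than one -/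
theorem twist_small {P : Type} {q D : ℕ} {dg : P → ℕ} (hq : 1 < q) (hP : IsBase q D dg) {α : ℂ}
    (hα : ‖α‖ < 1) :
    HasPole (fun s => ∏' v, (1 - (α * (q : ℂ) ^ (-s)) ^ dg v)⁻¹) (D : ℝ) 0 := by
  obtain ⟨hdeg, hfin, C, hcount⟩ := hP
  have hqr : (1 : ℝ) < (q : ℝ) := by exact_mod_cast hq
  have hq0 : (0 : ℝ) < (q : ℝ) := by linarith
  have hqc : (q : ℂ) ≠ 0 := by exact_mod_cast hq0.ne'
  have hsq1 : 1 < Real.sqrt q := by
    rw [Real.lt_sqrt (by norm_num)]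
    linarith
  have hsq : 0 < Real.sqrt q := by linarith
  let E : ℕ → ℂ := fun m => if hm : 0 < m then (∑ v ∈ (hfin m hm).toFinset, (dg v : ℂ)) -
    (((q : ℝ) ^ D : ℝ) : ℂ) ^ m else 0
  have hN : ∀ m (hm : 0 < m), (∑ v ∈ (hfin m hm).toFinset, (dg v : ℂ)) =
      (((q : ℝ) ^ D : ℝ) : ℂ) ^ m + E m := by
    intro m hm
    simp only [E, dif_pos hm]
    ring
  have hC1 : 0 ≤ |C| := abs_nonneg C
  have hE : ∀ m, 0 < m → ‖E m‖ ≤ |C| * ((q : ℝ) ^ D / Real.sqrt q) ^ m := by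
    intro m hm
    have h1 : E m = (((∑ v ∈ (hfin m hm).toFinset, (dg v : ℝ)) - ((q : ℝ) ^ D) ^ m : ℝ) : ℂ) := by
      simp only [E, dif_pos hm]
      push_cast
      rfl
    rw [h1, Complex.norm_real, Real.norm_eq_abs]
    refine (hcount m hm).trans (mul_le_mul_of_nonneg_right (le_abs_self C) ?_)
    exact pow_nonneg (div_nonneg (by positivity) hsq.le) _
  have hR : (1 : ℝ) ≤ (q : ℝ) ^ D := one_le_pow₀ hqr.le
  have hSR : (q : ℝ) ^ D / Real.sqrt q ≤ (q : ℝ) ^ D := div_le_self (by positivity) hsq1.le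
  set S := (q : ℝ) ^ D / Real.sqrt q with hSdef
  have hSpos : 0 < S := by positivity
  have hnorm : ∀ s : ℝ, ‖α * (q : ℂ) ^ (-(s : ℂ))‖ ≤ (q : ℝ) ^ (-s) := by
    intro s
    have h1 : (q : ℂ) = ((q : ℝ) : ℂ) := by push_cast; rfl
    rw [norm_mul, h1, Complex.norm_cpow_eq_rpow_re_of_pos hq0]
    simp only [Complex.neg_re, Complex.ofReal_re]
    exact mul_le_of_le_one_left (Real.rpow_nonneg hq0.le _) hα.le
  have hval : ∀ s : ℝ, (D : ℝ) < s → ∏' v, (1 - (α * (q : ℂ) ^ (-(s : ℂ))) ^ dg v)⁻¹ =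
      (1 - (((q : ℝ) ^ D : ℝ) : ℂ) * (α * (q : ℂ) ^ (-(s : ℂ))))⁻¹ *
        Complex.exp (Pool.Agent.TH117.BL.Gfun E (α * (q : ℂ) ^ (-(s : ℂ)))) := by
    intro s hs
    have h1 : ‖α * (q : ℂ) ^ (-(s : ℂ))‖ * (q : ℝ) ^ D < 1 := by
      refine lt_of_le_of_lt (mul_le_mul_of_nonneg_right (hnorm s) (by positivity)) ?_
      rw [← Real.rpow_natCast, ← Real.rpow_add hq0]
      exact Real.rpow_lt_one_of_one_lt_of_neg hqr (by linarith)
    exact (Pool.Agent.TH117.BL.hasProd_LW dg hdeg hfin ((q : ℝ) ^ D) |C| S hR hSpos.le hSR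
      hC1 E hE hN _ h1).tprod_eq
  have hcont : ContinuousAt (fun s : ℂ => α * (q : ℂ) ^ (-s)) (D : ℂ) :=
    continuousAt_const.mul (continuousAt_id.neg.const_cpow (Or.inl hqc))
  have hxD : ‖α * (q : ℂ) ^ (-(D : ℂ))‖ * S < 1 := by
    have h1 := hnorm (D : ℝ)
    push_cast at h1
    refine lt_of_le_of_lt (mul_le_mul_of_nonneg_right h1 hSpos.le) ?_
    rw [Real.rpow_neg hq0.le, Real.rpow_natCast, hSdef, ← mul_div_assoc,
      inv_mul_cancel₀ (by positivity), div_lt_one hsq]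
    exact hsq1
  have hG : ContinuousAt (fun s : ℂ => Complex.exp (Pool.Agent.TH117.BL.Gfun E
      (α * (q : ℂ) ^ (-s)))) (D : ℂ) := by
    refine Complex.continuous_exp.continuousAt.comp ?_
    refine ContinuousAt.comp (g := Pool.Agent.TH117.BL.Gfun E)
      (f := fun s : ℂ => α * (q : ℂ) ^ (-s)) ?_ hcont
    exact Pool.Agent.TH117.BL.continuousAt_G E |C| S hSpos hC1 hE _ hxD
  set g : ℂ → ℂ := fun s => 1 - (((q : ℝ) ^ D : ℝ) : ℂ) * (α * (q : ℂ) ^ (-s)) with hg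
  have hgD : g D = 1 - α := by
    simp only [hg]
    rw [Complex.cpow_neg, Complex.cpow_natCast]
    push_cast
    field_simp
  have hcoe : Tendsto (fun s : ℝ => (s : ℂ)) (𝓝[>] (D : ℝ)) (𝓝 (D : ℂ)) := by
    have h1 : Tendsto (fun s : ℝ => (s : ℂ)) (𝓝 (D : ℝ)) (𝓝 (((D : ℝ) : ℂ))) :=
      Complex.continuous_ofReal.tendsto _
    rw [Complex.ofReal_natCast] at h1
    exact h1.mono_left nhdsWithin_le_nhds
  have hgc : ContinuousAt g (D : ℂ) := continuousAt_const.sub (continuousAt_const.mul hcont)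
  have hne : g D ≠ 0 := by
    rw [hgD, sub_ne_zero]
    intro h
    rw [← h, norm_one] at hα
    exact lt_irrefl _ hα
  refine ⟨(g D)⁻¹ * Complex.exp (Pool.Agent.TH117.BL.Gfun E (α * (q : ℂ) ^ (-(D : ℂ)))),
    mul_ne_zero (inv_ne_zero hne) (Complex.exp_ne_zero _), ?_⟩
  have h1 := ((hgc.inv₀ hne).mul hG).tendsto.comp hcoe
  refine h1.congr' ?_
  filter_upwards [self_mem_nhdsWithin] with s hs
  have hs' : (D : ℝ) < s := hs
  simp only [Function.comp]
  rw [hval s hs', zpow_zero, one_mul]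
  rfl

/-- one eigenvalue of a constant family -/
theorem const_pole_le {P : Type} {q D : ℕ} {dg : P → ℕ} (hq : 1 < q) (hP : IsBase q D dg) {γ : ℂ}
    {j : ℕ} (hγ : ‖γ‖ ≤ (q : ℝ) ^ j) :
    HasPole (fun s => ∏' v, (1 - (γ * (q : ℂ) ^ (-s)) ^ dg v)⁻¹) ((j + D : ℕ) : ℝ)
      (if γ = (q : ℂ) ^ j then 1 else 0) := by
  rcases hγ.eq_or_lt with h | h
  · exact const_pole hq hP h
  have hq0 : (0 : ℝ) < (q : ℝ) := by exact_mod_cast (by omega : 0 < q)
  have hqc : (q : ℂ) ≠ 0 := by exact_mod_cast hq0.ne'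
  have hqj : (q : ℂ) ^ j ≠ 0 := pow_ne_zero _ hqc
  have h1 : ‖γ / (q : ℂ) ^ j‖ < 1 := by
    rw [norm_div, norm_pow, Complex.norm_natCast, div_lt_one (by positivity)]
    exact h
  have h2 := (twist_small hq hP h1).shift (j : ℝ)
  have h3 : (D : ℝ) + (j : ℝ) = ((j + D : ℕ) : ℝ) := by
    push_cast
    ring
  have h4 : γ ≠ (q : ℂ) ^ j := by
    rintro rfl
    rw [norm_pow, Complex.norm_natCast] at h
    exact lt_irrefl _ h
  rw [h3] at h2
  rw [if_neg h4]
  refine h2.congr fun s _ => ?_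
  refine tprod_congr fun v => ?_
  have h5 : γ / (q : ℂ) ^ j * (q : ℂ) ^ (-((s : ℂ) - ((j : ℝ) : ℂ))) = γ * (q : ℂ) ^ (-(s : ℂ)) := by
    have h6 : (-((s : ℂ) - ((j : ℝ) : ℂ))) = (j : ℂ) + (-(s : ℂ)) := by
      push_cast
      ring
    rw [h6, Complex.cpow_add _ _ hqc, Complex.cpow_natCast]
    field_simp
  rw [h5]

/-- The order of the pole for a constant family. -/
theorem const_order {P : Type} {q D : ℕ} {dg : P → ℕ} (hq : 1 < q) (hP : IsBase q D dg)
    {J : Type} [Fintype J] {deg : J → ℕ} {γ : J → ℂ} (hγ : ∀ e, ‖γ e‖ ^ 2 ≤ (q : ℝ) ^ deg e) (w : ℕ) :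
    HasPole (Lf q (yp (JY := fun _ : P => J) dg (fun _ => deg) (fun v e => γ e ^ dg v) (2 * w)))
      ((w + D : ℕ) : ℝ)
      ((fs (fun e => deg e = 2 * w ∧ γ e = (q : ℂ) ^ w)).card : ℤ) := by
  classical
  have hnorm : ∀ e, deg e = 2 * w → ‖γ e‖ ≤ (q : ℝ) ^ w := by
    intro e he
    have h1 : ‖γ e‖ ^ 2 ≤ ((q : ℝ) ^ w) ^ 2 := by
      have h2 := hγ e
      rwa [he, mul_comm 2 w, pow_mul] at h2
    exact (pow_le_pow_iff_left₀ (norm_nonneg _) (by positivity) two_ne_zero).1 h1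
  have h1 := HasPole.prod (fs (fun e => deg e = 2 * w))
    (Φ := fun e s => ∏' v : P, (1 - (γ e * (q : ℂ) ^ (-s)) ^ dg v)⁻¹) (a := ((w + D : ℕ) : ℝ))
    (r := fun e => if γ e = (q : ℂ) ^ w then 1 else 0)
    (fun e he => by
      have he' := mem_fs.1 he
      exact const_pole_le hq hP (hnorm e he'))
  have h2 : (∑ e ∈ fs (fun e => deg e = 2 * w), if γ e = (q : ℂ) ^ w then (1 : ℤ) else 0) =
      ((fs (fun e => deg e = 2 * w ∧ γ e = (q : ℂ) ^ w)).card : ℤ) := by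
    rw [sum_ite, sum_const_zero, add_zero, sum_const, nsmul_eq_mul, mul_one]
    congr 2
    ext e
    rw [mem_filter, mem_fs, mem_fs]
  rw [h2] at h1
  refine h1.congr fun s hs => ?_
  have hlt := qpow_lt hq hs
  have hmul : ∀ e ∈ fs (fun e => deg e = 2 * w), Multipliable fun v : P =>
      (1 - (γ e * (q : ℂ) ^ (-(s : ℂ))) ^ dg v)⁻¹ := by
    intro e he
    have h3 := multipliable_fac (J := fun _ : P => Unit) (pr := fun _ _ => True)
      (β := fun v _ => γ e ^ dg v) (b := 1) (R0 := (q : ℝ) ^ w) (x := (q : ℂ) ^ (-(s : ℂ))) hq hP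
      (fun v => by simp) (by positivity)
      (fun v u _ => by
        have he' := mem_fs.1 he
        rw [norm_pow]
        exact pow_le_pow_left₀ (norm_nonneg _) (hnorm e he') _) hlt
    refine h3.congr fun v => ?_
    rw [fac_eval']
    have h4 : fs (fun _ : Unit => True) = {()} := by
      ext u
      rw [mem_fs]
      simp
    rw [h4, prod_singleton, mul_pow]
  unfold Lf
  rw [← Multipliable.tprod_finsetProd hmul]
  refine tprod_congr fun v => ?_
  unfold yp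
  rw [fac_eval']
  refine prod_congr rfl fun e _ => ?_
  rw [mul_pow]

end Pool.Agent.U926.FM
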